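import Mathlib
import Pool.Agent.Q2.PM.Main

/-!
# MP_791b9a_al, Q1: full (positive) answer

Let `G` be a finite group with a Sylow 2-subgroup `P` of order `2 ^ n` and `1 < k < n` such that every subgroup
of `P` of order `2 ^ k` is propermutable in `G`.  Then `G` is 2-nilpotent.  (`P` need not be non-abelian.)
-/

set_option autoImplicit false

namespace Pool.Agent.Results.MP_791b9a_al.PropermutableSubgroups

open Subgroup Pointwise

/-- `H` and `X` permute: `H X = X H`. -/
def Permute {G : Type} [Group G] (H X : Subgroup G) : Prop :=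
  (H : Set G) * (X : Set G) = (X : Set G) * (H : Set G)

/-- `H` is propermutable in `G`: some `B ≤ G` satisfies `G = N_G(H) B`, and `H` permutes with every subgroup
of `B`. -/
def Propermutable {G : Type} [Group G] (H : Subgroup G) : Prop :=
  ∃ B : Subgroup G, ((normalizer (H : Set G) : Subgroup G) : Set G) * (B : Set G) = Set.univ ∧
    ∀ X : Subgroup G, X ≤ B → Permute H X

/-- `G` is 2-nilpotent: it has a normal subgroup `N` of odd order with `G = N P` for a Sylow 2-subgroup `P`. -/
def TwoNilpotent (G : Type) [Group G] : Prop :=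
  ∃ N : Subgroup G, N.Normal ∧ Odd (Nat.card N) ∧ ∃ P : Sylow 2 G, (N : Set G) * ((P : Subgroup G) : Set G) = Set.univ

theorem pro_of {G : Type} [Group G] {H : Subgroup G} (h : Propermutable H) : Q2.PM.Pro H := by
  obtain ⟨B, h1, h2⟩ := h
  refine ⟨B, ?_, ?_⟩
  · intro g
    have h3 : g ∈ ((normalizer (H : Set G) : Subgroup G) : Set G) * (B : Set G) := by
      rw [h1]; exact Set.mem_univ g
    obtain ⟨n, hn, b, hb, he⟩ := Set.mem_mul.1 h3
    exact ⟨n, hn, b, hb, he.symm⟩
  · intro X hX a ha x hx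
    have h3 : a * x ∈ (X : Set G) * (H : Set G) := by
      rw [← h2 X hX]
      exact Set.mul_mem_mul ha hx
    obtain ⟨x', hx', a', ha', he⟩ := Set.mem_mul.1 h3
    exact ⟨x', hx', a', ha', he.symm⟩

theorem nil_of {G : Type} [Group G] [Finite G] (h : Q2.TN.IsPNil 2 G) : TwoNilpotent G := by
  obtain ⟨N, hN, hc, j, hj⟩ := h
  refine ⟨N, hN, Nat.coprime_two_right.1 hc, ?_⟩
  obtain ⟨P⟩ := (inferInstance : Nonempty (Sylow 2 G))
  refine ⟨P, ?_⟩
  rw [← Subgroup.normal_mul N (P : Subgroup G)]
  have h1 : N ⊔ (P : Subgroup G) = ⊤ := by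
    rw [← Subgroup.index_eq_one]
    have h2 : (N ⊔ (P : Subgroup G)).index ∣ 2 ^ j := hj ▸ Subgroup.index_dvd_of_le le_sup_left
    have h3 : (N ⊔ (P : Subgroup G)).index ∣ (P : Subgroup G).index := Subgroup.index_dvd_of_le le_sup_right
    have h4 : ¬ 2 ∣ (P : Subgroup G).index := P.not_dvd_index
    have h5 : Nat.Coprime (2 ^ j) (P : Subgroup G).index :=
      Nat.Coprime.pow_left j ((Nat.Prime.coprime_iff_not_dvd Nat.prime_two).2 h4)
    exact Nat.eq_one_of_dvd_coprimes h5 h2 h3
  rw [h1, Subgroup.coe_top]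

/-- Full answer to Q1 of MP_791b9a_al (positive; also for abelian `P`). -/
theorem result (G : Type) [Group G] [Finite G] (P : Sylow 2 G) (n k : ℕ) (hn : Nat.card P = 2 ^ n)
    (hk : 1 < k) (hkn : k < n)
    (h : ∀ H : Subgroup G, H ≤ (P : Subgroup G) → Nat.card H = 2 ^ k → Propermutable H) :
    TwoNilpotent G := by
  apply nil_of
  refine Q2.PM.Fin.main k G (P : Subgroup G) hk ⟨P.isPGroup', P.not_dvd_index⟩ ?_ ?_
  · rw [show Nat.card (P : Subgroup G) = 2 ^ n from hn]
    exact Nat.pow_lt_pow_right (by norm_num) hkn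
  · intro H hH hc
    exact pro_of (h H hH hc)

end Pool.Agent.Results.MP_791b9a_al.PropermutableSubgroups
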